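import Pool.Agent.Helper97.Fuchs.Base
import Pool.Agent.Helper24.Fuchs.E

/-!
# Weighted counting in a discrete group modulo its unipotent subgroup
-/

namespace Pool.Agent.Helper97.Fuchs

open MeasureTheory Matrix UpperHalfPlane Filter Topology
open scoped MatrixGroups ENNReal BigOperators

noncomputable section

/-- the unipotent element `U j` as an element of the group -/
def cr_u {Γ : Subgroup SL(2, ℝ)} (hU : U 1 ∈ Γ) (j : ℤ) : Γ := ⟨U (j : ℝ), U_int_mem hU j⟩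

lemma cr_u_neg {Γ : Subgroup SL(2, ℝ)} (hU : U 1 ∈ Γ) (j : ℤ) :
    cr_u hU (-j) = (cr_u hU j)⁻¹ := by
  apply Subtype.ext
  simp [cr_u, U_neg]

lemma cr_rp_mul (a : SL(2, ℝ)) (x : ℝ) : rp (a * U x)⁻¹ = rp a⁻¹ - x := by
  have hd := det_eq a
  have h0 : a 1 0 ^ 2 + a 0 0 ^ 2 ≠ 0 := by
    intro h
    have h1 : a 1 0 = 0 := by nlinarith [sq_nonneg (a 1 0), sq_nonneg (a 0 0)]
    have h2 : a 0 0 = 0 := by nlinarith [sq_nonneg (a 1 0), sq_nonneg (a 0 0)]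
    rw [h1, h2] at hd
    simp at hd
  have e : ∀ g : SL(2, ℝ), rp g⁻¹ = (g 1 1 * (-g 1 0) + (-g 0 1) * g 0 0) / (g 1 0 ^ 2 + g 0 0 ^ 2) := by
    intro g
    unfold rp
    rw [Matrix.SpecialLinearGroup.coe_inv, Matrix.adjugate_fin_two]
    simp
  rw [e, e]
  simp only [mul_apply', U_00, U_01, U_10, U_11]
  have h1 : (a 1 0 * 1 + a 1 1 * 0) ^ 2 + (a 0 0 * 1 + a 0 1 * 0) ^ 2 = a 1 0 ^ 2 + a 0 0 ^ 2 := by
    ring
  rw [h1]
  field_simp
  ring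

lemma cr_lin_mul (a : SL(2, ℝ)) (x : ℝ) : lin (a * U x) 1 = lin a 1 := by
  rw [lin_mul]
  congr 1
  apply Complex.ext <;> simp

/-- resummation over the cosets of the unipotent subgroup -/
lemma cr_resum {Γ : Subgroup SL(2, ℝ)} (hU : U 1 ∈ Γ) (φ ψ F : Γ → ℝ≥0∞)
    (hF : ∀ a j, F (a * cr_u hU j) = F a) :
    ∑' a, φ a * F a * ∑' j : ℤ, ψ (a * cr_u hU j) = ∑' a, ψ a * F a * ∑' j : ℤ, φ (a * cr_u hU j) := by
  have e1 : ∑' a, φ a * F a * ∑' j : ℤ, ψ (a * cr_u hU j)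
      = ∑' j : ℤ, ∑' a, φ a * F a * ψ (a * cr_u hU j) := by
    rw [ENNReal.tsum_comm]
    refine tsum_congr fun a => ?_
    rw [ENNReal.tsum_mul_left]
  have e2 : ∀ j : ℤ, ∑' a, φ a * F a * ψ (a * cr_u hU j)
      = ∑' a, ψ a * F a * φ (a * cr_u hU (-j)) := by
    intro j
    rw [← (Equiv.mulRight (cr_u hU (-j))).tsum_eq (fun a => φ a * F a * ψ (a * cr_u hU j))]
    refine tsum_congr fun a => ?_
    simp only [Equiv.coe_mulRight]
    rw [hF, cr_u_neg, inv_mul_cancel_right]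
    ring
  rw [e1]
  simp_rw [e2]
  rw [ENNReal.tsum_comm]
  refine tsum_congr fun a => ?_
  rw [ENNReal.tsum_mul_left]
  congr 1
  exact (Equiv.neg ℤ).tsum_eq (fun j => φ (a * cr_u hU j))

/-- the constant bounding the weight of a coset -/
def crK : ℝ≥0∞ := ∑' j : ℤ, ENNReal.ofReal (4 / (1 + |(j : ℝ)|) ^ 2)

lemma crK_ne_top : crK ≠ ⊤ := by
  have h : Summable fun j : ℤ => 4 / (1 + |(j : ℝ)|) ^ 2 := by
    have hs : Summable fun j : ℤ => 1 / (j : ℝ) ^ 2 :=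
      Real.summable_one_div_int_pow.mpr (by norm_num)
    have h0 : Summable fun j : ℤ => (4 * (1 / (j : ℝ) ^ 2) + if j = 0 then (4 : ℝ) else 0) := by
      refine (hs.mul_left 4).add ?_
      refine summable_of_ne_finset_zero (s := {0}) ?_
      intro b hb
      simp at hb
      simp [hb]
    refine Summable.of_nonneg_of_le (fun j => by positivity) (fun j => ?_) h0
    by_cases hj : j = 0
    · subst hj; simp
    · simp only [hj, if_false, add_zero]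
      have hj' : (j : ℝ) ≠ 0 := by exact_mod_cast hj
      have h1 : 0 < (j : ℝ) ^ 2 := by positivity
      have h2 : (j : ℝ) ^ 2 ≤ (1 + |(j : ℝ)|) ^ 2 := by
        rw [← sq_abs (j : ℝ)]
        have := abs_nonneg (j : ℝ)
        nlinarith
      rw [mul_one_div]
      exact div_le_div_of_nonneg_left (by norm_num) h1 h2
  unfold crK
  rw [← ENNReal.ofReal_tsum_of_nonneg (fun j => by positivity) h]
  exact ENNReal.ofReal_ne_top

lemma cr_sum_le (x : ℝ) : ∑' j : ℤ, ENNReal.ofReal (1 / (1 + |x - j|) ^ 2) ≤ crK := by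
  have h1 : ∀ j : ℤ, ENNReal.ofReal (1 / (1 + |x - j|) ^ 2)
      ≤ ENNReal.ofReal (4 / (1 + |((j - ⌊x⌋ : ℤ) : ℝ)|) ^ 2) := by
    intro j
    apply ENNReal.ofReal_le_ofReal
    have h3 : |((j - ⌊x⌋ : ℤ) : ℝ)| ≤ |x - j| + 1 := by
      have h4 : ((j - ⌊x⌋ : ℤ) : ℝ) = -(x - j) + (x - ⌊x⌋) := by push_cast; ring
      rw [h4]
      have h5 := Int.floor_le x
      have h6 := Int.lt_floor_add_one x
      calc |-(x - j) + (x - ⌊x⌋)| ≤ |-(x - j)| + |x - ⌊x⌋| := abs_add_le _ _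
        _ ≤ |x - j| + 1 := by
          rw [abs_neg, abs_of_nonneg (by linarith : 0 ≤ x - (⌊x⌋ : ℝ))]
          linarith
    have h7 := abs_nonneg (x - (j : ℝ))
    have h8 := abs_nonneg (((j - ⌊x⌋ : ℤ) : ℝ))
    rw [div_le_div_iff₀ (by positivity) (by positivity)]
    nlinarith
  refine (ENNReal.tsum_le_tsum h1).trans ?_
  unfold crK
  rw [← (Equiv.subRight ⌊x⌋).tsum_eq (fun j : ℤ => ENNReal.ofReal (4 / (1 + |(j : ℝ)|) ^ 2))]
  exact le_of_eq rfl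

lemma cr_om_le (b : SL(2, ℝ)) :
    ∑' j : ℤ, ENNReal.ofReal (om (b * U (j : ℝ))) ≤ crK := by
  have := cr_sum_le (rp b⁻¹)
  unfold om
  simp_rw [cr_rp_mul]
  exact this

lemma cr_om_ge (b : SL(2, ℝ)) :
    1 ≤ 4 * ∑' j : ℤ, ENNReal.ofReal (om (b * U (j : ℝ))) := by
  have h := ENNReal.le_tsum (f := fun j : ℤ => ENNReal.ofReal (om (b * U (j : ℝ)))) ⌊rp b⁻¹⌋
  refine le_trans ?_ (mul_le_mul_right h 4)
  have h1 : 1 / 4 ≤ om (b * U ((⌊rp b⁻¹⌋ : ℤ) : ℝ)) := by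
    unfold om
    rw [cr_rp_mul]
    have h5 := Int.floor_le (rp b⁻¹)
    have h6 := Int.lt_floor_add_one (rp b⁻¹)
    have h7 : |rp b⁻¹ - (⌊rp b⁻¹⌋ : ℝ)| ≤ 1 := by
      rw [abs_of_nonneg (by linarith)]; linarith
    have h8 := abs_nonneg (rp b⁻¹ - (⌊rp b⁻¹⌋ : ℝ))
    rw [div_le_div_iff₀ (by norm_num) (by positivity)]
    nlinarith
  have h2 : ENNReal.ofReal (1 / 4) ≤ ENNReal.ofReal (om (b * U ((⌊rp b⁻¹⌋ : ℤ) : ℝ))) :=
    ENNReal.ofReal_le_ofReal h1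
  have h3 : (1 : ℝ≥0∞) = 4 * ENNReal.ofReal (1 / 4) := by
    have : (4 : ℝ≥0∞) = ENNReal.ofReal 4 := by norm_num
    rw [this, ← ENNReal.ofReal_mul (by norm_num)]
    norm_num
  calc (1 : ℝ≥0∞) = 4 * ENNReal.ofReal (1 / 4) := h3
    _ ≤ _ := mul_le_mul_right h2 4

/-- norm bound for elements with bounded real part and bounded first column -/
lemma cr_nrm_le (b : SL(2, ℝ)) {R : ℝ} (h1 : 1 ≤ ‖lin b 1‖) (h2 : ‖lin b 1‖ ≤ R)
    (h3 : 0 ≤ rp b⁻¹) (h4 : rp b⁻¹ < 1) : nrm b ≤ 2 * R := by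
  have hd := det_eq b
  have e : rp b⁻¹ = (b 1 1 * (-b 1 0) + (-b 0 1) * b 0 0) / (b 1 0 ^ 2 + b 0 0 ^ 2) := by
    unfold rp
    rw [Matrix.SpecialLinearGroup.coe_inv, Matrix.adjugate_fin_two]
    simp
  have hn : ‖lin b 1‖ ^ 2 = b 0 0 ^ 2 + b 1 0 ^ 2 := by
    rw [Complex.sq_norm, Complex.normSq_apply, lin_re, lin_im]
    simp; ring
  set x := rp b⁻¹ with hx
  have hq : 1 ≤ b 0 0 ^ 2 + b 1 0 ^ 2 := by rw [← hn]; nlinarith
  have hq' : b 0 0 ^ 2 + b 1 0 ^ 2 ≤ R ^ 2 := by rw [← hn]; nlinarith [norm_nonneg (lin b 1)]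
  have hx' : x * (b 0 0 ^ 2 + b 1 0 ^ 2) = -(b 1 1 * b 1 0 + b 0 1 * b 0 0) := by
    have hne : b 1 0 ^ 2 + b 0 0 ^ 2 ≠ 0 := by linarith
    rw [e, div_mul_eq_mul_div, div_eq_iff hne]
    ring
  -- (b01^2+b11^2)(b00^2+b10^2) = 1 + (b01 b00 + b11 b10)^2
  have hid : (b 0 1 ^ 2 + b 1 1 ^ 2) * (b 0 0 ^ 2 + b 1 0 ^ 2)
      = 1 + (x * (b 0 0 ^ 2 + b 1 0 ^ 2)) ^ 2 := by
    rw [hx']
    linear_combination (b 0 0 * b 1 1 - b 0 1 * b 1 0 + 1) * hd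
  have hle : b 0 1 ^ 2 + b 1 1 ^ 2 ≤ 1 + R ^ 2 := by
    have hxx : x ^ 2 ≤ 1 := by nlinarith
    have hpos : 0 < b 0 0 ^ 2 + b 1 0 ^ 2 := by linarith
    have h5 : (b 0 1 ^ 2 + b 1 1 ^ 2) * (b 0 0 ^ 2 + b 1 0 ^ 2)
        ≤ (1 + R ^ 2) * (b 0 0 ^ 2 + b 1 0 ^ 2) := by
      rw [hid]
      have h6 : (x * (b 0 0 ^ 2 + b 1 0 ^ 2)) ^ 2 ≤ (b 0 0 ^ 2 + b 1 0 ^ 2) ^ 2 := by
        rw [mul_pow]; nlinarith [sq_nonneg (b 0 0 ^ 2 + b 1 0 ^ 2)]
      nlinarith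
    exact le_of_mul_le_mul_right h5 hpos
  have hR : 1 ≤ R := h1.trans h2
  refine le_of_sq_le_sq' ?_ (by linarith)
  rw [nrm_sq]
  nlinarith

/-- the counting statements, from the Shimizu lemma -/
theorem count_region_of {ε : ℝ} {Γ : Subgroup SL(2, ℝ)} (hd : Disc ε Γ) (hU : U 1 ∈ Γ)
    (hsh : ∀ g ∈ Γ, (g 1 0 = 0 ∧ |g 0 0| = 1) ∨ 1 ≤ |g 1 0|) :
    ∃ C : ℝ, 1 ≤ C ∧
      (∀ R : ℝ, 1 ≤ R → (∑' a : Γ, open Classical in
        if ‖lin (a : SL(2, ℝ)) 1‖ ≤ R then ENNReal.ofReal (om (a : SL(2, ℝ))) else 0)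
          ≤ ENNReal.ofReal (C * R ^ 8)) ∧
      (∀ g ∈ Γ, ∀ H : ℂ → ℝ≥0∞,
        ∑' a : Γ, ENNReal.ofReal (om (a : SL(2, ℝ))) * H (lin (g⁻¹ * (a : SL(2, ℝ))) 1)
          ≤ ENNReal.ofReal C * ∑' a : Γ, ENNReal.ofReal (om (a : SL(2, ℝ))) *
              H (lin (a : SL(2, ℝ)) 1)) ∧
      (∀ g ∈ Γ, (∑' a : Γ, open Classical in
        if ((a : SL(2, ℝ))⁻¹ * g) 1 0 = 0 then ENNReal.ofReal (om (a : SL(2, ℝ))) else 0)
          ≤ ENNReal.ofReal C) := by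
  classical
  obtain ⟨C₁, hC₁, hball⟩ := count_ball ε hd.1
  set k : ℝ := crK.toReal with hk
  have hk0 : 0 ≤ k := ENNReal.toReal_nonneg
  have hkK : crK = ENNReal.ofReal k := (ENNReal.ofReal_toReal crK_ne_top).symm
  have hone : ∀ a ∈ Γ, 1 ≤ ‖lin a 1‖ := by
    intro a ha
    have hn : ‖lin a 1‖ ^ 2 = a 0 0 ^ 2 + a 1 0 ^ 2 := by
      rw [Complex.sq_norm, Complex.normSq_apply, lin_re, lin_im]
      simp; ring
    have h1 : 1 ≤ ‖lin a 1‖ ^ 2 := by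
      rw [hn]
      rcases hsh a ha with ⟨_, h⟩ | h
      · have : a 0 0 ^ 2 = 1 := by rw [← sq_abs, h]; norm_num
        nlinarith [sq_nonneg (a 1 0)]
      · have : 1 ≤ a 1 0 ^ 2 := by rw [← sq_abs]; nlinarith
        nlinarith [sq_nonneg (a 0 0)]
    nlinarith [norm_nonneg (lin a 1)]
  -- (i)
  have hi : ∀ R : ℝ, 1 ≤ R → (∑' a : Γ,
        if ‖lin (a : SL(2, ℝ)) 1‖ ≤ R then ENNReal.ofReal (om (a : SL(2, ℝ))) else 0)
          ≤ ENNReal.ofReal (k * (C₁ * (2 * R) ^ 8)) := by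
    intro R hR
    set F : Γ → ℝ≥0∞ := fun a => if ‖lin (a : SL(2, ℝ)) 1‖ ≤ R then 1 else 0 with hF
    set χ : Γ → ℝ≥0∞ := fun a =>
      if 0 ≤ rp (a : SL(2, ℝ))⁻¹ ∧ rp (a : SL(2, ℝ))⁻¹ < 1 then 1 else 0 with hχ
    set φ : Γ → ℝ≥0∞ := fun a => ENNReal.ofReal (om (a : SL(2, ℝ))) with hφ
    have hFinv : ∀ a j, F (a * cr_u hU j) = F a := by
      intro a j
      simp only [hF, Subgroup.coe_mul, cr_u, cr_lin_mul]
    have hχ1 : ∀ a : Γ, 1 ≤ ∑' j : ℤ, χ (a * cr_u hU j) := by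
      intro a
      refine le_trans ?_ (ENNReal.le_tsum ⌊rp (a : SL(2, ℝ))⁻¹⌋)
      have h5 := Int.floor_le (rp (a : SL(2, ℝ))⁻¹)
      have h6 := Int.lt_floor_add_one (rp (a : SL(2, ℝ))⁻¹)
      simp only [hχ, Subgroup.coe_mul, cr_u, cr_rp_mul]
      rw [if_pos ⟨by linarith, by linarith⟩]
    have hφK : ∀ a : Γ, ∑' j : ℤ, φ (a * cr_u hU j) ≤ crK := fun a => cr_om_le a
    -- the finite set
    have hfin : ∑' a : Γ, χ a * F a ≤ ENNReal.ofReal (C₁ * (2 * R) ^ 8) := by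
      obtain ⟨hf, hcard⟩ := hball Γ hd (2 * R) (by linarith)
      set S : Set Γ := {a | (a : SL(2, ℝ)) ∈ {g : SL(2, ℝ) | g ∈ Γ ∧ nrm g ≤ 2 * R}} with hS
      have hSf : S.Finite := hf.preimage (Subtype.val_injective.injOn)
      have h0 : ∀ a ∉ S, χ a * F a = 0 := by
        intro a ha
        by_contra hne
        apply ha
        have h1 : χ a ≠ 0 := left_ne_zero_of_mul hne
        have h2 : F a ≠ 0 := right_ne_zero_of_mul hne
        have h3 : 0 ≤ rp (a : SL(2, ℝ))⁻¹ ∧ rp (a : SL(2, ℝ))⁻¹ < 1 := by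
          by_contra h; apply h1; simp only [hχ]; rw [if_neg h]
        have h4 : ‖lin (a : SL(2, ℝ)) 1‖ ≤ R := by
          by_contra h; apply h2; simp only [hF]; rw [if_neg h]
        exact ⟨a.2, cr_nrm_le _ (hone _ a.2) h4 h3.1 h3.2⟩
      have h5 : ∑' a : Γ, χ a * F a = ∑ a ∈ hSf.toFinset, χ a * F a :=
        tsum_eq_sum (fun a ha => h0 a (by simpa using ha))
      rw [h5]
      have h6 : ∑ a ∈ hSf.toFinset, χ a * F a ≤ ∑ a ∈ hSf.toFinset, (1 : ℝ≥0∞) := by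
        refine Finset.sum_le_sum fun a _ => ?_
        have h7 : χ a ≤ 1 := by simp only [hχ]; split_ifs <;> simp
        have h8 : F a ≤ 1 := by simp only [hF]; split_ifs <;> simp
        calc χ a * F a ≤ 1 * 1 := mul_le_mul' h7 h8
          _ = 1 := one_mul 1
      refine h6.trans ?_
      rw [Finset.sum_const, nsmul_eq_mul, mul_one]
      have h9 : hSf.toFinset.card ≤ {g : SL(2, ℝ) | g ∈ Γ ∧ nrm g ≤ 2 * R}.ncard := by
        rw [← Set.ncard_eq_toFinset_card S hSf]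
        have : S.ncard = (Subtype.val '' S).ncard :=
          (Set.ncard_image_of_injective S Subtype.val_injective).symm
        rw [this]
        refine Set.ncard_le_ncard ?_ hf
        rintro _ ⟨a, ha, rfl⟩
        exact ha
      have h10 : ((hSf.toFinset.card : ℕ) : ℝ) ≤ C₁ * (2 * R) ^ 8 := by
        refine le_trans ?_ hcard
        exact_mod_cast h9
      have h11 : ((hSf.toFinset.card : ℕ) : ℝ≥0∞) = ENNReal.ofReal ((hSf.toFinset.card : ℕ) : ℝ) := by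
        simp
      rw [h11]
      exact ENNReal.ofReal_le_ofReal h10
    calc (∑' a : Γ, if ‖lin (a : SL(2, ℝ)) 1‖ ≤ R then ENNReal.ofReal (om (a : SL(2, ℝ))) else 0)
        = ∑' a : Γ, φ a * F a := by
          refine tsum_congr fun a => ?_
          simp only [hφ, hF]
          split_ifs <;> simp
      _ ≤ ∑' a : Γ, φ a * F a * ∑' j : ℤ, χ (a * cr_u hU j) := by
          refine ENNReal.tsum_le_tsum fun a => ?_
          calc φ a * F a = φ a * F a * 1 := (mul_one _).symm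
            _ ≤ _ := mul_le_mul_right (hχ1 a) _
      _ = ∑' a : Γ, χ a * F a * ∑' j : ℤ, φ (a * cr_u hU j) := cr_resum hU φ χ F hFinv
      _ ≤ ∑' a : Γ, χ a * F a * crK := by
          refine ENNReal.tsum_le_tsum fun a => ?_
          exact mul_le_mul_right (hφK a) _
      _ = (∑' a : Γ, χ a * F a) * crK := ENNReal.tsum_mul_right
      _ ≤ ENNReal.ofReal (C₁ * (2 * R) ^ 8) * crK := mul_le_mul_left hfin _
      _ = ENNReal.ofReal (k * (C₁ * (2 * R) ^ 8)) := by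
          rw [hkK, ← ENNReal.ofReal_mul (by positivity)]
          congr 1; ring
  -- (ii)
  have hii : ∀ g ∈ Γ, ∀ H : ℂ → ℝ≥0∞,
        ∑' a : Γ, ENNReal.ofReal (om (a : SL(2, ℝ))) * H (lin (g⁻¹ * (a : SL(2, ℝ))) 1)
          ≤ ENNReal.ofReal (4 * k) * ∑' a : Γ, ENNReal.ofReal (om (a : SL(2, ℝ))) *
              H (lin (a : SL(2, ℝ)) 1) := by
    intro g hg H
    set F : Γ → ℝ≥0∞ := fun a => H (lin (a : SL(2, ℝ)) 1) with hF
    set ψ : Γ → ℝ≥0∞ := fun a => ENNReal.ofReal (om (a : SL(2, ℝ))) with hψ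
    set φ : Γ → ℝ≥0∞ := fun a => ENNReal.ofReal (om (g * (a : SL(2, ℝ)))) with hφ
    have hFinv : ∀ a j, F (a * cr_u hU j) = F a := by
      intro a j
      simp only [hF, Subgroup.coe_mul, cr_u, cr_lin_mul]
    have hψ1 : ∀ a : Γ, 1 ≤ 4 * ∑' j : ℤ, ψ (a * cr_u hU j) := fun a => cr_om_ge a
    have hφK : ∀ a : Γ, ∑' j : ℤ, φ (a * cr_u hU j) ≤ crK := by
      intro a
      have := cr_om_le (g * (a : SL(2, ℝ)))
      simp_rw [mul_assoc] at this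
      exact this
    have hsub : ∑' a : Γ, ENNReal.ofReal (om (a : SL(2, ℝ))) * H (lin (g⁻¹ * (a : SL(2, ℝ))) 1)
        = ∑' a : Γ, φ a * F a := by
      rw [← (Equiv.mulLeft (⟨g, hg⟩ : Γ)).tsum_eq (fun a : Γ =>
        ENNReal.ofReal (om (a : SL(2, ℝ))) * H (lin (g⁻¹ * (a : SL(2, ℝ))) 1))]
      refine tsum_congr fun a => ?_
      simp only [Equiv.coe_mulLeft, Subgroup.coe_mul, hφ, hF, inv_mul_cancel_left]
    rw [hsub]
    calc ∑' a : Γ, φ a * F a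
        ≤ ∑' a : Γ, 4 * (φ a * F a * ∑' j : ℤ, ψ (a * cr_u hU j)) := by
          refine ENNReal.tsum_le_tsum fun a => ?_
          calc φ a * F a = φ a * F a * 1 := (mul_one _).symm
            _ ≤ φ a * F a * (4 * ∑' j : ℤ, ψ (a * cr_u hU j)) := mul_le_mul_right (hψ1 a) _
            _ = _ := by ring
      _ = 4 * ∑' a : Γ, ψ a * F a * ∑' j : ℤ, φ (a * cr_u hU j) := by
          rw [ENNReal.tsum_mul_left, cr_resum hU φ ψ F hFinv]
      _ ≤ 4 * ∑' a : Γ, ψ a * F a * crK := by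
          refine mul_le_mul_right (ENNReal.tsum_le_tsum fun a => ?_) _
          exact mul_le_mul_right (hφK a) _
      _ = 4 * crK * ∑' a : Γ, ψ a * F a := by
          rw [ENNReal.tsum_mul_right]; ring
      _ = _ := by
          rw [ENNReal.ofReal_mul (by norm_num), hkK]
          norm_num [hψ, hF]
  -- (iii)
  have hiii : ∀ g ∈ Γ, (∑' a : Γ,
        if ((a : SL(2, ℝ))⁻¹ * g) 1 0 = 0 then ENNReal.ofReal (om (a : SL(2, ℝ))) else 0)
          ≤ ENNReal.ofReal (4 * k * (k * (C₁ * 2 ^ 8))) := by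
    intro g hg
    have h1 := hii g hg (fun z => if z.im = 0 then 1 else 0)
    have h2 := hi 1 le_rfl
    have e1 : ∀ a : Γ, (if ((a : SL(2, ℝ))⁻¹ * g) 1 0 = 0 then
          ENNReal.ofReal (om (a : SL(2, ℝ))) else 0)
        = ENNReal.ofReal (om (a : SL(2, ℝ))) *
          (if (lin (g⁻¹ * (a : SL(2, ℝ))) 1).im = 0 then 1 else 0) := by
      intro a
      have h3 : ((a : SL(2, ℝ))⁻¹ * g) 1 0 = 0 ↔ (lin (g⁻¹ * (a : SL(2, ℝ))) 1).im = 0 := by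
        have h4 : g⁻¹ * (a : SL(2, ℝ)) = ((a : SL(2, ℝ))⁻¹ * g)⁻¹ := by
          rw [_root_.mul_inv_rev, inv_inv]
        rw [h4, lin_im, Matrix.SpecialLinearGroup.coe_inv, Matrix.adjugate_fin_two]
        simp
      by_cases h : ((a : SL(2, ℝ))⁻¹ * g) 1 0 = 0
      · rw [if_pos h, if_pos (h3.1 h), mul_one]
      · rw [if_neg h, if_neg (fun h' => h (h3.2 h')), mul_zero]
    have e2 : ∑' a : Γ, ENNReal.ofReal (om (a : SL(2, ℝ))) *
        (if (lin (a : SL(2, ℝ)) 1).im = 0 then 1 else 0)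
        ≤ ∑' a : Γ, if ‖lin (a : SL(2, ℝ)) 1‖ ≤ 1 then ENNReal.ofReal (om (a : SL(2, ℝ))) else 0 := by
      refine ENNReal.tsum_le_tsum fun a => ?_
      by_cases h : (lin (a : SL(2, ℝ)) 1).im = 0
      · rw [if_pos h, mul_one, if_pos]
        have h3 : (a : SL(2, ℝ)) 1 0 = 0 := by
          rw [lin_im] at h; simpa using h
        rcases hsh a a.2 with ⟨_, h4⟩ | h4
        · have h5 : lin (a : SL(2, ℝ)) 1 = (((a : SL(2, ℝ)) 0 0 : ℝ) : ℂ) := by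
            apply Complex.ext
            · rw [lin_re]; simp
            · rw [h]; simp
          rw [h5, Complex.norm_real, Real.norm_eq_abs, h4]
        · rw [h3] at h4; norm_num at h4
      · rw [if_neg h, mul_zero]; exact zero_le
    simp_rw [e1]
    refine h1.trans ?_
    refine (mul_le_mul_right (e2.trans h2) _).trans ?_
    rw [← ENNReal.ofReal_mul (by positivity)]
    norm_num
  refine ⟨1 + k * (C₁ * 2 ^ 8) + 4 * k + 4 * k * (k * (C₁ * 2 ^ 8)), ?_, ?_, ?_, ?_⟩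
  · have : 0 ≤ k * (C₁ * 2 ^ 8) + 4 * k + 4 * k * (k * (C₁ * 2 ^ 8)) := by positivity
    linarith
  · intro R hR
    refine (hi R hR).trans (ENNReal.ofReal_le_ofReal ?_)
    have h1 : k * (C₁ * (2 * R) ^ 8) = k * (C₁ * 2 ^ 8) * R ^ 8 := by ring
    rw [h1]
    refine mul_le_mul_of_nonneg_right ?_ (by positivity)
    have : 0 ≤ 4 * k + 4 * k * (k * (C₁ * 2 ^ 8)) := by positivity
    linarith
  · intro g hg H
    refine (hii g hg H).trans (mul_le_mul_left (ENNReal.ofReal_le_ofReal ?_) _)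
    have : 0 ≤ k * (C₁ * 2 ^ 8) + 4 * k * (k * (C₁ * 2 ^ 8)) := by positivity
    linarith
  · intro g hg
    refine (hiii g hg).trans (ENNReal.ofReal_le_ofReal ?_)
    have : 0 ≤ k * (C₁ * 2 ^ 8) + 4 * k := by positivity
    linarith

end

end Pool.Agent.Helper97.Fuchs
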