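import Pool.Agent.Helper68.Fuchs.Count
import Pool.Agent.Helper44.Fuchs.D1

/-!
# Weighted counting in a discrete group modulo its unipotent subgroup (final statement)
-/

namespace Pool.Agent.Helper97.Fuchs

open MeasureTheory Matrix UpperHalfPlane Filter Topology
open scoped MatrixGroups ENNReal BigOperators

noncomputable section

theorem count_region {ε : ℝ} {Γ : Subgroup SL(2, ℝ)} (hd : Disc ε Γ) (hU : U 1 ∈ Γ) :
    ∃ C : ℝ, 1 ≤ C ∧
      (∀ R : ℝ, 1 ≤ R → (∑' a : Γ, open Classical in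
        if ‖lin (a : SL(2, ℝ)) 1‖ ≤ R then ENNReal.ofReal (om (a : SL(2, ℝ))) else 0)
          ≤ ENNReal.ofReal (C * R ^ 8)) ∧
      (∀ g ∈ Γ, ∀ H : ℂ → ℝ≥0∞,
        ∑' a : Γ, ENNReal.ofReal (om (a : SL(2, ℝ))) * H (lin (g⁻¹ * (a : SL(2, ℝ))) 1)
          ≤ ENNReal.ofReal C * ∑' a : Γ, ENNReal.ofReal (om (a : SL(2, ℝ))) *
              H (lin (a : SL(2, ℝ)) 1)) ∧
      (∀ g ∈ Γ, (∑' a : Γ, open Classical in
        if ((a : SL(2, ℝ))⁻¹ * g) 1 0 = 0 then ENNReal.ofReal (om (a : SL(2, ℝ))) else 0)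
          ≤ ENNReal.ofReal C) :=
  count_region_of hd hU (shimizu hd hU)

end

end Pool.Agent.Helper97.Fuchs
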